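import Mathlib
import Pool.Agent.H15.G.R_seed8.W609.CR.Stm

set_option autoImplicit false

/-! Project CR: the ideal of a point of the plane, for forms. -/

namespace Pool.Agent.W591.CR

open Finset MvPolynomial Pool.Agent.W609.CR

variable {K : Type} [Field K]

/-- translation of the affine plane, homogeneous version -/
noncomputable def tr (a : Fin 2 → K) : MvPolynomial (Fin 3) K →ₐ[K] MvPolynomial (Fin 3) K :=
  aeval (![X 0 + C (a 0) * X 2, X 1 + C (a 1) * X 2, X 2] : Fin 3 → MvPolynomial (Fin 3) K)

lemma tr0 (a : Fin 2 → K) : tr a (X 0) = X 0 + C (a 0) * X 2 := by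
  simp [tr]

lemma tr1 (a : Fin 2 → K) : tr a (X 1) = X 1 + C (a 1) * X 2 := by
  simp [tr]

lemma tr2 (a : Fin 2 → K) : tr a (X 2) = X 2 := by
  simp [tr]

lemma trC (a : Fin 2 → K) (c : K) : tr a (C c) = C c := by
  rw [← MvPolynomial.algebraMap_eq]
  exact (tr a).commutes c

lemma tr_tr (a : Fin 2 → K) (f : MvPolynomial (Fin 3) K) : tr (-a) (tr a f) = f := by
  have h : (tr (-a)).comp (tr a) = AlgHom.id K _ := by
    apply MvPolynomial.algHom_ext
    intro i
    fin_cases i
    · change tr (-a) (tr a (X 0)) = X 0
      rw [tr0, map_add, map_mul, tr0, tr2, trC]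
      simp
    · change tr (-a) (tr a (X 1)) = X 1
      rw [tr1, map_add, map_mul, tr1, tr2, trC]
      simp
    · change tr (-a) (tr a (X 2)) = X 2
      rw [tr2, tr2]
  exact DFunLike.congr_fun h f

lemma tr_homog (a : Fin 2 → K) (f : MvPolynomial (Fin 3) K) (d : ℕ) (hf : f.IsHomogeneous d) :
    (tr a f).IsHomogeneous d := by
  have h := hf.aeval (![X 0 + C (a 0) * X 2, X 1 + C (a 1) * X 2, X 2] :
    Fin 3 → MvPolynomial (Fin 3) K) (n := 1) (by
      intro i
      fin_cases i
      · exact (isHomogeneous_X K 0).add ((isHomogeneous_X K 2).C_mul _)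
      · exact (isHomogeneous_X K 1).add ((isHomogeneous_X K 2).C_mul _)
      · exact isHomogeneous_X K 2)
  rwa [one_mul] at h

lemma tr_mem (a : Fin 2 → K) (f : MvPolynomial (Fin 3) K) (m : ℕ)
    (hf : f ∈ (RingHom.ker (MvPolynomial.eval (aff a))) ^ m) :
    tr a f ∈ (RingHom.ker (MvPolynomial.eval (bas (n := 2) (K := K) 2))) ^ m := by
  have h1 : Ideal.map (tr a) (RingHom.ker (MvPolynomial.eval (aff a))) ≤
      RingHom.ker (MvPolynomial.eval (bas (n := 2) (K := K) 2)) := by
    rw [Ideal.map_le_iff_le_comap]
    intro g hg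
    rw [Ideal.mem_comap, RingHom.mem_ker]
    rw [RingHom.mem_ker] at hg
    have h2 : (MvPolynomial.eval (bas (n := 2) (K := K) 2)) (tr a g) =
        MvPolynomial.eval (aff a) g := by
      have : ((MvPolynomial.eval (bas (n := 2) (K := K) 2)).comp (tr a).toRingHom) =
          MvPolynomial.eval (aff a) := by
        apply MvPolynomial.ringHom_ext
        · intro r
          change MvPolynomial.eval _ (tr a (C r)) = _
          rw [trC]
          simp
        · intro i
          fin_cases i
          · change MvPolynomial.eval _ (tr a (X 0)) = MvPolynomial.eval (aff a) (X 0)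
            rw [tr0]
            simp [bas, aff]
          · change MvPolynomial.eval _ (tr a (X 1)) = MvPolynomial.eval (aff a) (X 1)
            rw [tr1]
            simp [bas, aff]
          · change MvPolynomial.eval _ (tr a (X 2)) = MvPolynomial.eval (aff a) (X 2)
            rw [tr2]
            simp [bas, aff]
      exact DFunLike.congr_fun this g
    rw [h2, hg]
  have h3 := Ideal.mem_map_of_mem (tr a) hf
  rw [Ideal.map_pow] at h3
  exact Ideal.pow_right_mono h1 m h3

theorem t_link : P_LINK := by
  intro K _ a m f d hf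
  constructor
  · intro h
    have hg := tr_mem a f m h
    have hgd := tr_homog a f d hf
    -- the translated form lies in the power of the ideal of two variables
    have h1 : tr a f ∈ (Ideal.span ({X 0, X 1} : Set (MvPolynomial (Fin 3) K))) ^ m := by
      rw [← (tr a f).support_sum_monomial_coeff]
      refine Ideal.sum_mem _ fun b hb => ?_
      have e1 := exponent_le hgd 2 hg hb
      have e2 := homog_degree hgd hb
      rw [Finsupp.degree_eq_sum, Fin.sum_univ_three] at e2
      rw [monomial_eq, Finsupp.prod_fintype _ _ (by intro; simp), Fin.prod_univ_three]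
      refine Ideal.mul_mem_left _ _ (Ideal.mul_mem_right _ _ ?_)
      have e3 : (X 0 : MvPolynomial (Fin 3) K) ^ b 0 * X 1 ^ b 1 ∈
          (Ideal.span ({X 0, X 1} : Set (MvPolynomial (Fin 3) K))) ^ (b 0 + b 1) := by
        rw [pow_add]
        exact Ideal.mul_mem_mul (Ideal.pow_mem_pow (Ideal.subset_span (by simp)) _)
          (Ideal.pow_mem_pow (Ideal.subset_span (by simp)) _)
      exact Ideal.pow_le_pow_right (by omega) e3
    have h2 := Ideal.mem_map_of_mem (tr (-a)) h1
    rw [tr_tr, Ideal.map_pow, Ideal.map_span] at h2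
    refine Ideal.pow_right_mono ?_ m h2
    rw [Ideal.span_le]
    rintro _ ⟨x, hx, rfl⟩
    rcases hx with rfl | hx
    · apply Ideal.subset_span
      left
      change tr (-a) (X 0) = _
      rw [tr0]
      simp [sub_eq_add_neg]
    · rw [Set.mem_singleton_iff] at hx
      subst hx
      apply Ideal.subset_span
      right
      change tr (-a) (X 1) = _
      rw [tr1]
      simp [sub_eq_add_neg]
  · intro h
    refine Ideal.pow_right_mono ?_ m h
    rw [Ideal.span_le]
    rintro x (rfl | hx)
    · simp [RingHom.mem_ker, aff]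
    · rw [Set.mem_singleton_iff] at hx
      subst hx
      simp [RingHom.mem_ker, aff]

end Pool.Agent.W591.CR
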